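import Pool.Agent.X214.SO.BergMain

/-! MP_5c36f9_al, Q1 for all Bergman groups of cardinality less than the bounding number, and
for all so-functions with dominated rates on any Bergman group. -/

universe u

namespace Pool.Agent.Results.MP_5c36f9_al.DominatedRates

open Filter Pool.Agent.X214.SO

/-- (1) On a Bergman group `G` for which every family of functions `ℕ → ℕ` indexed by `G` is
eventually dominated by one function (that is, `|G|` is less than the bounding number), every
slowly oscillating function is constant at infinity.
(2) More generally, on any Bergman group, a slowly oscillating function whose rates of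
oscillation are eventually dominated by one function is constant at infinity. -/
theorem result :
    (∀ (G : Type u) [Group G], Bergman G →
      (∀ r : G → ℕ → ℕ, ∃ g : ℕ → ℕ, ∀ u, ∀ᶠ k in atTop, r u k ≤ g k) →
      ∀ f : G → ℝ, SlowOsc f → ConstAtInf f) ∧
    (∀ (G : Type u) [Group G], Bergman G → ∀ f : G → ℝ, SlowOsc f →
      (∃ g : ℕ → ℕ, ∀ u : G, ∀ᶠ k in atTop, rate f u k ≤ g k) → ConstAtInf f) :=
  ⟨fun _ _ hG hr f hf => bergman_dominated hG hf (hr (rate f)),
    fun _ _ hG _ hf hd => bergman_dominated hG hf hd⟩

end Pool.Agent.Results.MP_5c36f9_al.DominatedRates
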