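import Pool.Agent.X214.SO.Gap

/-! MP_5c36f9_al, Q1: on a Bergman group the limit points at infinity of an so-function have no
gap. -/

universe u

namespace Pool.Agent.Results.MP_5c36f9_al.NoGap

open Pool.Agent.X214.SO

/-- On any Bergman group the limit points at infinity of a slowly oscillating function have no
gap: if `a < b` and only finitely many values lie strictly between `a` and `b`, then only
finitely many are `≤ a`, or only finitely many are `≥ b`. -/
theorem result (G : Type u) [Group G] (hG : Bergman G) (f : G → ℝ) (hf : SlowOsc f) (a b : ℝ)
    (hab : a < b) (hgap : {x | a < f x ∧ f x < b}.Finite) :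
    {x | f x ≤ a}.Finite ∨ {x | b ≤ f x}.Finite :=
  bergman_gap hG hf hab hgap

end Pool.Agent.Results.MP_5c36f9_al.NoGap
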