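import Pool.Agent.X214.SO.Perm

/-! MP_5c36f9_al, Q1 for all symmetric groups, and a general criterion. -/

universe u

namespace Pool.Agent.Results.MP_5c36f9_al.SymmetricGroups

open Pool.Agent.X214.SO

/-- (1) On the group `S_X` of all permutations of any set `X`, every slowly oscillating function
is constant at infinity. (2) The same holds on every group with a linked family of subsets. -/
theorem result :
    (∀ (X : Type u) (f : Equiv.Perm X → ℝ), SlowOsc f → ConstAtInf f) ∧
    (∀ (G : Type u) [Group G] (𝒜 : Set (Set G)), Linked 𝒜 →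
      ∀ f : G → ℝ, SlowOsc f → ConstAtInf f) :=
  ⟨fun X f hf => constAtInf_perm X f hf, fun _ _ _ h𝒜 _ hf => constAtInf_of_linked h𝒜 hf⟩

end Pool.Agent.Results.MP_5c36f9_al.SymmetricGroups
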